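import Pool.Agent.Helper878_dcs.Defs

/-!
# Short and dominating links: definitions
-/

set_option autoImplicit false

namespace Pool.Agent.Helper878_pd

open Pool.Agent.Helper878_dcs

/-- The vertex `v` is a nonterminal. -/
def NonTerm (I : Inst) (v : {v // v ∈ I.1}) : Prop := ∀ X ∈ I.2.2, v.1 ∉ X

/-- There is no induced path `z, a, x, b, z'` on five vertices such that `z` and `z'` belong to one
terminal set `Z`, the vertices `a` and `b` are nonterminals, and `x` is a nonterminal or in `Z`. -/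
def ShortLinks (I : Inst) : Prop :=
  ∀ Z ∈ I.2.2, ∀ z a x b z' : {v // v ∈ I.1}, z.1 ∈ Z → z'.1 ∈ Z → NonTerm I a → NonTerm I b →
    (NonTerm I x ∨ x.1 ∈ Z) →
    ¬ ((graph I.1 I.2.1).Adj z a ∧ (graph I.1 I.2.1).Adj a x ∧ (graph I.1 I.2.1).Adj x b ∧
      (graph I.1 I.2.1).Adj b z' ∧ ¬ (graph I.1 I.2.1).Adj z x ∧ ¬ (graph I.1 I.2.1).Adj z b ∧
      ¬ (graph I.1 I.2.1).Adj z z' ∧ ¬ (graph I.1 I.2.1).Adj a b ∧
      ¬ (graph I.1 I.2.1).Adj a z' ∧ ¬ (graph I.1 I.2.1).Adj x z')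

/-- If `z, a, b, z'` is an induced path on four vertices such that `z` and `z'` belong to one
terminal set and `a` and `b` are nonterminals, then every vertex of every other terminal set is
adjacent to `a` or to `b`. -/
def DominatingLinks (I : Inst) : Prop :=
  ∀ Z ∈ I.2.2, ∀ Y ∈ I.2.2, Z ≠ Y → ∀ z a b z' y : {v // v ∈ I.1}, z.1 ∈ Z → z'.1 ∈ Z →
    y.1 ∈ Y → NonTerm I a → NonTerm I b →
    ((graph I.1 I.2.1).Adj z a ∧ (graph I.1 I.2.1).Adj a b ∧ (graph I.1 I.2.1).Adj b z' ∧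
      ¬ (graph I.1 I.2.1).Adj z b ∧ ¬ (graph I.1 I.2.1).Adj z z' ∧
      ¬ (graph I.1 I.2.1).Adj a z') →
    (graph I.1 I.2.1).Adj y a ∨ (graph I.1 I.2.1).Adj y b

end Pool.Agent.Helper878_pd
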