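import Pool.Agent.Helper878_pd.Defs
import Pool.Agent.Helper878_c5.Main

/-!
# Disjoint Connected Subgraphs on `(2P_1+P_2)`-free graphs with short and dominating links
-/

set_option autoImplicit false
set_option linter.unusedSectionVars false

namespace Pool.Agent.Helper878_pd

open Pool.Agent.NPC Pool.Agent.Helper878_dcs Pool.Agent.H671R2.SF
open Pool.Agent.Helper878_mm (nm nm_mem card_J)
open Pool.Agent.Helper878_c5 (an bn nodC)

/-! ### Programs -/

/-- `c` sees all classes of `Z` -/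
def allB (E : List (ℕ × ℕ)) (Z : List ℕ) (c : ℕ) : Bool := Z.all fun z => !missB E Z c z

/-- `z, a, b, z'` is an induced path -/
def p4B (E : List (ℕ × ℕ)) (z a b z' : ℕ) : Bool :=
  adj E z a && (adj E a b && (adj E b z' && (!adj E z b && (!adj E z z' && !adj E a z'))))

/-- `z, a, x, b, z'` is an induced path -/
def p5B (E : List (ℕ × ℕ)) (z a x b z' : ℕ) : Bool :=
  adj E z a && (adj E a x && (adj E x b && (adj E b z' && (!adj E z x && (!adj E z b &&
    (!adj E z z' && (!adj E a b && (!adj E a z' && !adj E x z'))))))))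

/-- an edge of nonterminals which links a terminal set -/
def eB (E : List (ℕ × ℕ)) (J : List (List ℕ)) (a b : ℕ) : Bool :=
  J.any fun Z => Z.any fun z => Z.any fun z' => p4B E z a b z'

def lnkD (E : List (ℕ × ℕ)) (W : List ℕ) (J : List (List ℕ)) : List ((ℕ × ℕ) × (ℕ × ℕ)) :=
  (((J ×ˢ W).filter fun p => allB E p.1 p.2).map fun p => (an p.1, bn p.2)) ++
    ((W ×ˢ W).filter fun p => eB E J p.1 p.2).map fun p => (bn p.1, bn p.2)

def coreD (E : List (ℕ × ℕ)) (W : List ℕ) (J : List (List ℕ)) : Bool :=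
  decide (J.length ≤ (maxM (nodC W J) (lnkD E W J)).length)

def slB (V : List ℕ) (E : List (ℕ × ℕ)) (Zs : List (List ℕ)) : Bool :=
  Zs.all fun Z => Z.all fun z => Z.all fun z' => (freeV V Zs).all fun a =>
    (freeV V Zs).all fun b => (freeV V Zs ++ Z).all fun x => !p5B E z a x b z'

def dlB (V : List ℕ) (E : List (ℕ × ℕ)) (Zs : List (List ℕ)) : Bool :=
  Zs.all fun Z => Zs.all fun Y => decide (Z = Y) || Z.all fun z => Z.all fun z' =>
    Y.all fun y => (freeV V Zs).all fun a => (freeV V Zs).all fun b =>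
      !p4B E z a b z' || (adj E y a || adj E y b)

section
variable {γ : Type} [TEnc γ] {E : γ → List (ℕ × ℕ)} {V W Z : γ → List ℕ} {J : γ → List (List ℕ)}
  {u v a b x : γ → ℕ}

@[fun_prop]
theorem poly_allB (hE : Poly E) (hZ : Poly Z) (hu : Poly u) :
    Poly (fun x => allB (E x) (Z x) (u x)) := by
  unfold allB; fun_prop

@[fun_prop]
theorem poly_p4B (hE : Poly E) (hu : Poly u) (ha : Poly a) (hb : Poly b) (hv : Poly v) :
    Poly (fun x => p4B (E x) (u x) (a x) (b x) (v x)) := by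
  unfold p4B; fun_prop

@[fun_prop]
theorem poly_p5B (hE : Poly E) (hu : Poly u) (ha : Poly a) (hx : Poly x) (hb : Poly b)
    (hv : Poly v) : Poly (fun y => p5B (E y) (u y) (a y) (x y) (b y) (v y)) := by
  unfold p5B; fun_prop

@[fun_prop]
theorem poly_eB (hE : Poly E) (hJ : Poly J) (hu : Poly u) (hv : Poly v) :
    Poly (fun x => eB (E x) (J x) (u x) (v x)) := by
  unfold eB; fun_prop

@[fun_prop]
theorem poly_lnkD (hE : Poly E) (hW : Poly W) (hJ : Poly J) :
    Poly (fun x => lnkD (E x) (W x) (J x)) := by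
  unfold lnkD; fun_prop

@[fun_prop]
theorem poly_coreD (hE : Poly E) (hW : Poly W) (hJ : Poly J) :
    Poly (fun x => coreD (E x) (W x) (J x)) := by
  unfold coreD; fun_prop

@[fun_prop]
theorem poly_slB (hE : Poly E) (hV : Poly V) (hJ : Poly J) :
    Poly (fun x => slB (V x) (E x) (J x)) := by
  unfold slB; fun_prop

@[fun_prop]
theorem poly_dlB (hE : Poly E) (hV : Poly V) (hJ : Poly J) :
    Poly (fun x => dlB (V x) (E x) (J x)) := by
  unfold dlB; fun_prop

end

/-! ### Structure -/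

/-- `z, a, b, z'` is an induced path -/
def P4 (G : SimpleGraph ℕ) (z a b z' : ℕ) : Prop :=
  G.Adj z a ∧ G.Adj a b ∧ G.Adj b z' ∧ ¬ G.Adj z b ∧ ¬ G.Adj z z' ∧ ¬ G.Adj a z'

/-- `z, a, x, b, z'` is an induced path -/
def P5 (G : SimpleGraph ℕ) (z a x b z' : ℕ) : Prop :=
  G.Adj z a ∧ G.Adj a x ∧ G.Adj x b ∧ G.Adj b z' ∧ ¬ G.Adj z x ∧ ¬ G.Adj z b ∧ ¬ G.Adj z z' ∧
    ¬ G.Adj a b ∧ ¬ G.Adj a z' ∧ ¬ G.Adj x z'

section
variable {E : List (ℕ × ℕ)} {U : Finset ℕ} {W : List ℕ} {J : List (List ℕ)}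

theorem p4_iff {z a b z' : ℕ} : p4B E z a b z' = true ↔ P4 (GG E) z a b z' := by
  unfold p4B P4
  simp only [Bool.and_eq_true, adj_iff, Bool.not_eq_true', ← Bool.not_eq_true]

theorem p5_iff {z a x b z' : ℕ} : p5B E z a x b z' = true ↔ P5 (GG E) z a x b z' := by
  unfold p5B P5
  simp only [Bool.and_eq_true, adj_iff, Bool.not_eq_true', ← Bool.not_eq_true]

theorem all_iff {Z : List ℕ} {c : ℕ} :
    allB E Z c = true ↔ ∀ z ∈ Z.toFinset, ¬ miss (GG E) Z.toFinset c z := by
  unfold allB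
  simp only [List.all_eq_true, nmiss_iff, List.mem_toFinset]

theorem e_iff {a b : ℕ} : eB E J a b = true ↔ ∃ Z ∈ J, ∃ z ∈ Z, ∃ z' ∈ Z, P4 (GG E) z a b z' := by
  unfold eB
  simp only [List.any_eq_true, p4_iff]

/-- the standing assumptions -/
structure S1 (E : List (ℕ × ℕ)) (U : Finset ℕ) (W : List ℕ) (J : List (List ℕ)) : Prop where
  lc : LCtx E U W J
  sl : ∀ Z ∈ J, ∀ z ∈ Z, ∀ z' ∈ Z, ∀ a ∈ W, ∀ b ∈ W, ∀ x, x ∈ W ∨ x ∈ Z → ¬ P5 (GG E) z a x b z'
  dl : ∀ Z ∈ J, ∀ Y ∈ J, Z ≠ Y → ∀ z ∈ Z, ∀ z' ∈ Z, ∀ y ∈ Y, ∀ a ∈ W, ∀ b ∈ W,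
    P4 (GG E) z a b z' → (GG E).Adj y a ∨ (GG E).Adj y b

variable (h : S1 E U W J) {Z : List ℕ} (hZ : Z ∈ J)
include h hZ

theorem S1.ne' : Z.toFinset.Nonempty :=
  ⟨_, List.mem_toFinset.2 (nm_mem (h.lc.hne Z hZ))⟩

theorem S1.single {c : ℕ} (hc : allB E Z c = true) : Con (GG E) (Z.toFinset ∪ {c}) :=
  con_single (h.ne' hZ) (all_iff.1 hc)

/-- a link of `Z` connects `Z` -/
theorem S1.own {z a b z' : ℕ} (hz : z ∈ Z) (hz' : z' ∈ Z) (ha : a ∈ W)
    (hp : P4 (GG E) z a b z') : Con (GG E) (Z.toFinset ∪ {a, b}) := by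
  obtain ⟨h1, h2, h3, h4, h5, h6⟩ := hp
  refine con_pair (h.ne' hZ) ?_ (Or.inl h2)
  intro y hy
  by_contra hn
  push Not at hn
  obtain ⟨m1, m2⟩ := hn
  have hU := h.lc.hJU Z hZ
  have hz0 := List.mem_toFinset.2 hz
  have hz1 := List.mem_toFinset.2 hz'
  have n1 : ¬ near (GG E) Z.toFinset y z := fun hn => m1 z hz0 hn h1.symm
  have n2 : ¬ near (GG E) Z.toFinset y z' := fun hn => m2 z' hz1 hn h3
  have := h.lc.hK z (hU hz0) a (h.lc.hWU (List.mem_toFinset.2 ha)) y (hU hy) z' (hU hz1) h1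
    (fun h' => n1 (near_of_adj h'.symm)) (miss_self hy m1) h5 h6
    (fun he => n2 (he ▸ near_refl _ _))
  exact n2 (near_of_adj this)

/-- a dominating edge connects `Z` -/
theorem S1.other {a b : ℕ} (hab : (GG E).Adj a b)
    (hd : ∀ y ∈ Z, (GG E).Adj y a ∨ (GG E).Adj y b) : Con (GG E) (Z.toFinset ∪ {a, b}) := by
  refine con_pair (h.ne' hZ) ?_ (Or.inl hab)
  intro y hy
  rcases hd y (List.mem_toFinset.1 hy) with h1 | h1
  · exact Or.inl fun hm => hm y hy (near_refl _ _) h1.symm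
  · exact Or.inr fun hm => hm y hy (near_refl _ _) h1.symm

/-- In a connected superset without a vertex seeing everything there is a link. -/
theorem S1.conv {o : Finset ℕ} (ho : o ⊆ W.toFinset) (hc : Con (GG E) (Z.toFinset ∪ o))
    (hno : ∀ c ∈ o, allB E Z c = false) :
    ∃ a ∈ o, ∃ b ∈ o, ∃ z ∈ Z, ∃ z' ∈ Z, P4 (GG E) z a b z' := by
  have hK := h.lc.hK
  have hU := h.lc.hJU Z hZ
  have hne := h.ne' hZ
  have hd := h.lc.hdc Z hZ
  have hmem : ∀ b ∈ (Z.toFinset ∪ o) \ Z.toFinset, b ∈ o := fun b hb => by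
    rw [Finset.mem_sdiff, Finset.mem_union] at hb
    exact hb.1.resolve_left hb.2
  have hoW : ∀ c ∈ o, c ∈ W := fun c hc => List.mem_toFinset.1 (ho hc)
  have hoU : ∀ c ∈ o, c ∈ U := fun c hc => h.lc.hWU (ho hc)
  -- every vertex of `o` misses a class
  have hm : ∀ c ∈ o, ∃ z ∈ Z.toFinset, miss (GG E) Z.toFinset c z := by
    intro c hco
    by_contra hn
    push Not at hn
    have := all_iff.2 hn
    rw [hno c hco] at this
    exact absurd this (by decide)
  -- a vertex seeing one class and missing another one sees every class but this one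
  have honly : ∀ c ∈ o, ∀ x ∈ Z.toFinset, ∀ y ∈ Z.toFinset, ∀ y' ∈ Z.toFinset,
      ¬ miss (GG E) Z.toFinset c x → miss (GG E) Z.toFinset c y →
      ¬ near (GG E) Z.toFinset y y' → ¬ miss (GG E) Z.toFinset c y' := by
    intro c hco x hx y hy y' hy' h1 h2 h3 h4
    exact h1 (miss_all hK hU hne hd (hoU c hco) hy hy' h3 h2 h4 x hx)
  have hsee : ∀ c y, ¬ miss (GG E) Z.toFinset c y → ∃ y' ∈ Z.toFinset,
      near (GG E) Z.toFinset y y' ∧ (GG E).Adj c y' := by
    intro c y hh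
    unfold miss at hh
    push Not at hh
    exact hh
  -- from two adjacent vertices of different kinds to a link
  have hlink : ∀ c ∈ o, ∀ d ∈ o, (GG E).Adj c d → ∀ y ∈ Z.toFinset, ∀ y' ∈ Z.toFinset,
      miss (GG E) Z.toFinset c y → miss (GG E) Z.toFinset d y' →
      ¬ miss (GG E) Z.toFinset c y' → ¬ miss (GG E) Z.toFinset d y →
      ∃ a ∈ o, ∃ b ∈ o, ∃ z ∈ Z, ∃ z' ∈ Z, P4 (GG E) z a b z' := by
    intro c hco d hdo hcd y hy y' hy' m1 m2 s1 s2
    obtain ⟨y1, hy1, n1, a1⟩ := hsee c y' s1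
    obtain ⟨y2, hy2, n2, a2⟩ := hsee d y s2
    refine ⟨c, hco, d, hdo, y1, List.mem_toFinset.1 hy1, y2, List.mem_toFinset.1 hy2,
      a1.symm, hcd, a2, fun h' => ?_, fun h' => ?_, fun h' => ?_⟩
    · exact m2 y1 hy1 n1 h'.symm
    · refine m1 y1 hy1 ?_ a1
      exact near_trans hK hU hne hd hy hy2 hy1 n2 (near_of_adj h'.symm)
    · exact m1 y2 hy2 n2 h'
  by_cases h3 : three (GG E) Z.toFinset
  · -- three classes: all classes are single vertices
    obtain ⟨z1, hz1, z2, hz2, z3, hz3, n12, n13, n23⟩ := h3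
    have hsing : ∀ x ∈ Z.toFinset, ∀ y ∈ Z.toFinset, ¬ (GG E).Adj x y := by
      intro x hx y hy hxy
      -- two of the three are not near `x`
      have key : ∀ u ∈ Z.toFinset, ∀ v ∈ Z.toFinset, ¬ near (GG E) Z.toFinset u v →
          near (GG E) Z.toFinset x u ∨ near (GG E) Z.toFinset x v := by
        intro u hu v hv huv
        by_contra hn
        push Not at hn
        have e1 : ∀ w ∈ Z.toFinset, ¬ near (GG E) Z.toFinset x w → ¬ (GG E).Adj x w ∧
            ¬ (GG E).Adj y w := fun w hw hnw => ⟨fun h' => hnw (near_of_adj h'), fun h' =>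
              hnw (Or.inr (Or.inr ⟨y, hy, hxy, h'⟩))⟩
        have := hK x (hU hx) y (hU hy) u (hU hu) v (hU hv) hxy (e1 u hu hn.1).1 (e1 u hu hn.1).2
          (e1 v hv hn.2).1 (e1 v hv hn.2).2 (fun he => huv (he ▸ near_refl _ _))
        exact huv (near_of_adj this)
      have tr : ∀ u ∈ Z.toFinset, ∀ v ∈ Z.toFinset, near (GG E) Z.toFinset x u →
          near (GG E) Z.toFinset x v → near (GG E) Z.toFinset u v := fun u hu v hv hxu hxv =>
        near_trans hK hU hne hd hu hx hv (near_symm hxu) hxv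
      rcases key z1 hz1 z2 hz2 n12 with e | e
      · rcases key z2 hz2 z3 hz3 n23 with f | f
        · exact n12 (tr _ hz1 _ hz2 e f)
        · exact n13 (tr _ hz1 _ hz3 e f)
      · rcases key z1 hz1 z3 hz3 n13 with f | f
        · exact n12 (tr _ hz1 _ hz2 f e)
        · exact n23 (tr _ hz2 _ hz3 e f)
    have hnear : ∀ x ∈ Z.toFinset, ∀ y ∈ Z.toFinset, near (GG E) Z.toFinset x y → x = y := by
      rintro x hx y hy (h' | h' | ⟨p, hp, h', _⟩)
      · exact h'
      · exact absurd h' (hsing x hx y hy)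
      · exact absurd h' (hsing x hx p hp)
    obtain ⟨c, hc', c1⟩ := exists_sees hK hU hne hd Finset.subset_union_left hc hz1
    have hco := hmem c hc'
    obtain ⟨y, hy, c2⟩ := hm c hco
    obtain ⟨d, hd', d1⟩ := exists_sees hK hU hne hd Finset.subset_union_left hc hy
    have hdo := hmem d hd'
    obtain ⟨y', hy', d2⟩ := hm d hdo
    have hyy' : ¬ near (GG E) Z.toFinset y y' := fun hn =>
      d1 (miss_congr hK hU hne hd hy' hy (near_symm hn) d2)
    have c3 := honly c hco z1 hz1 y hy y' hy' c1 c2 hyy'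
    by_cases hcd : (GG E).Adj c d
    · exact hlink c hco d hdo hcd y hy y' hy' c2 d2 c3 d1
    · -- a third class
      obtain ⟨x, hx, x1, x2⟩ : ∃ x ∈ Z.toFinset, ¬ near (GG E) Z.toFinset y x ∧
          ¬ near (GG E) Z.toFinset y' x := by
        by_contra hn
        push Not at hn
        have f : ∀ u ∈ Z.toFinset, u = y ∨ u = y' := by
          intro u hu
          by_cases e : near (GG E) Z.toFinset y u
          · exact Or.inl (hnear y hy u hu e).symm
          · exact Or.inr (hnear y' hy' u hu (hn u hu e)).symm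
        have g : ∀ u v : ℕ, ¬ near (GG E) Z.toFinset u v → u ≠ v := fun u v hh he =>
          hh (he ▸ near_refl _ _)
        have g1 := g _ _ n12
        have g2 := g _ _ n13
        have g3 := g _ _ n23
        rcases f z1 hz1 with e1 | e1 <;> rcases f z2 hz2 with e2 | e2 <;>
          rcases f z3 hz3 with e3 | e3
        · exact g1 (e1.trans e2.symm)
        · exact g1 (e1.trans e2.symm)
        · exact g2 (e1.trans e3.symm)
        · exact g3 (e2.trans e3.symm)
        · exact g3 (e2.trans e3.symm)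
        · exact g2 (e1.trans e3.symm)
        · exact g1 (e1.trans e2.symm)
        · exact g1 (e1.trans e2.symm)
      have adj1 : ∀ e ∈ o, ∀ u ∈ Z.toFinset, ¬ miss (GG E) Z.toFinset e u → (GG E).Adj e u := by
        intro e _ u hu hh
        obtain ⟨u', hu', nn, aa⟩ := hsee e u hh
        rw [hnear u hu u' hu' nn]
        exact aa
      have c4 := honly c hco z1 hz1 y hy x hx c1 c2 x1
      have d4 := honly d hdo y hy y' hy' x hx d1 d2 x2
      exfalso
      refine h.sl Z hZ y' (List.mem_toFinset.1 hy') y (List.mem_toFinset.1 hy) c (hoW c hco) d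
        (hoW d hdo) x (Or.inr (List.mem_toFinset.1 hx)) ⟨(adj1 c hco y' hy' c3).symm,
        adj1 c hco x hx c4, (adj1 d hdo x hx d4).symm, adj1 d hdo y hy d1,
        hsing y' hy' x hx, fun h' => miss_self hy' d2 h'.symm, hsing y' hy' y hy, hcd,
        miss_self hy c2, hsing x hx y hy⟩
  · -- two classes
    obtain ⟨z, hz⟩ := h.ne' hZ
    obtain ⟨z', hz', hzz'⟩ := exists_not_near hne hd z hz
    have hcl : ∀ x ∈ Z.toFinset, ¬ near (GG E) Z.toFinset z x →
        near (GG E) Z.toFinset z' x := by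
      intro x hx e
      by_contra e'
      exact h3 ⟨z, hz, z', hz', x, hx, hzz', e, e'⟩
    obtain ⟨b, hb', a, ha', b1, a1, hab⟩ := exists_edge hK hU hne hd Finset.subset_union_left hc hz
      h3 (fun b hb _ => hm b (hmem b hb))
    have hbo := hmem b hb'
    have hao := hmem a ha'
    have b2 : miss (GG E) Z.toFinset b z' := by
      obtain ⟨y, hy, e⟩ := hm b hbo
      by_cases e' : near (GG E) Z.toFinset z y
      · exact absurd (miss_congr hK hU hne hd hy hz (near_symm e') e) b1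
      · exact miss_congr hK hU hne hd hy hz' (near_symm (hcl y hy e')) e
    by_cases a2 : miss (GG E) Z.toFinset a z'
    · -- `a` misses everything
      obtain ⟨d, hd', d1⟩ := exists_sees hK hU hne hd Finset.subset_union_left hc hz'
      have hdo := hmem d hd'
      have d2 : miss (GG E) Z.toFinset d z := by
        obtain ⟨y, hy, e⟩ := hm d hdo
        by_cases e' : near (GG E) Z.toFinset z y
        · exact miss_congr hK hU hne hd hy hz (near_symm e') e
        · exact absurd (miss_congr hK hU hne hd hy hz' (near_symm (hcl y hy e')) e) d1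
      by_cases hbd : (GG E).Adj b d
      · exact hlink b hbo d hdo hbd z' hz' z hz b2 d2 b1 d1
      · exfalso
        have haZ : a ∉ Z.toFinset := (Finset.mem_sdiff.1 ha').2
        have hda : (GG E).Adj d a := adj_of_miss_all hK hU (hoU d hdo) (hoU a hao) haZ hz hz' hzz'
          (fun x hx e1 e2 => hzz' (near_trans hK hU ⟨z, hz⟩ hd hz hx hz' e1 (near_symm e2)))
          d2 d1 a1 a2
        obtain ⟨u, hu, nu, au⟩ := hsee b z b1
        obtain ⟨v, hv, nv, av⟩ := hsee d z' d1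
        have nuv : ¬ (GG E).Adj u v := fun h' => hzz' (near_trans hK hU ⟨z, hz⟩ hd hz hv hz'
          (near_trans hK hU ⟨z, hz⟩ hd hz hu hv nu (near_of_adj h')) (near_symm nv))
        exact h.sl Z hZ u (List.mem_toFinset.1 hu) v (List.mem_toFinset.1 hv) b (hoW b hbo) d
          (hoW d hdo) a (Or.inl (hoW a hao)) ⟨au.symm, hab.symm, hda.symm, av,
          fun h' => a1 u hu nu h'.symm, fun h' => d2 u hu nu h'.symm, nuv, hbd,
          fun h' => b2 v hv nv h', fun h' => a2 v hv nv h'⟩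
    · exact hlink b hbo a hao hab.symm z' hz' z hz b2 a1 b1 a2

end

section
variable {E : List (ℕ × ℕ)} {U : Finset ℕ} {W : List ℕ} {J : List (List ℕ)}

theorem feas_iff_assign (h : S1 E U W J) :
    Feas (GG E) W.toFinset (Zf J) ↔ Assign (Finset.univ : Finset {Z // Z ∈ J})
      (fun i w => w ∈ W ∧ allB E i.1 w = true) (fun a b => a ∈ W ∧ b ∈ W ∧ eB E J a b = true) := by
  constructor
  · rintro ⟨o, ho, hd⟩
    have hex : ∀ i : {Z // Z ∈ J}, ∃ s ⊆ o i, (∃ w, s = {w} ∧ (w ∈ W ∧ allB E i.1 w = true)) ∨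
        ∃ w w', w ≠ w' ∧ s = {w, w'} ∧ (w ∈ W ∧ w' ∈ W ∧ eB E J w w' = true) := by
      intro i
      have hoW : ∀ x ∈ o i, x ∈ W := fun x hx => List.mem_toFinset.1 ((ho i).1 hx)
      by_cases hz : ∃ c ∈ o i, allB E i.1 c = true
      · obtain ⟨c, hc1, hc2⟩ := hz
        exact ⟨{c}, Finset.singleton_subset_iff.2 hc1, Or.inl ⟨c, rfl, hoW c hc1, hc2⟩⟩
      · push Not at hz
        obtain ⟨a, ha, b, hb, z, hz1, z', hz2, hp⟩ := h.conv i.2 (ho i).1 (ho i).2
          (fun c hc => Bool.not_eq_true _ ▸ hz c hc)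
        exact ⟨{a, b}, Finset.insert_subset ha (Finset.singleton_subset_iff.2 hb),
          Or.inr ⟨a, b, hp.2.1.ne, rfl, hoW a ha, hoW b hb,
          e_iff.2 ⟨i.1, i.2, z, hz1, z', hz2, hp⟩⟩⟩
    choose s hs1 hs2 using hex
    exact ⟨s, fun i _ j _ hij => Finset.disjoint_of_subset_left (hs1 i)
      (Finset.disjoint_of_subset_right (hs1 j) (hd i j hij)), fun i _ => hs2 i⟩
  · rintro ⟨g, hg1, hg2⟩
    have hex : ∀ i : {Z // Z ∈ J}, g i ⊆ W.toFinset ∧ Con (GG E) (i.1.toFinset ∪ g i) := by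
      intro i
      rcases hg2 i (Finset.mem_univ i) with ⟨w, hw, hw1, hw2⟩ | ⟨a, b, hne, hw, ha, hb, hab⟩
      · rw [hw]
        exact ⟨Finset.singleton_subset_iff.2 (List.mem_toFinset.2 hw1), h.single i.2 hw2⟩
      · rw [hw]
        refine ⟨Finset.insert_subset (List.mem_toFinset.2 ha)
          (Finset.singleton_subset_iff.2 (List.mem_toFinset.2 hb)), ?_⟩
        obtain ⟨Z, hZ, z, hz, z', hz', hp⟩ := e_iff.1 hab
        by_cases he : Z = i.1
        · subst he
          exact h.own i.2 hz hz' ha hp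
        · exact h.other i.2 hp.2.1 fun y hy => h.dl Z hZ i.1 i.2 he z hz z' hz' y hy a ha b hb hp
    exact ⟨g, hex, fun i j hij => hg1 i (Finset.mem_univ i) j (Finset.mem_univ j) hij⟩

theorem assign_core (h : S1 E U W J) : Assign (Finset.univ : Finset {Z // Z ∈ J})
      (fun i w => w ∈ W ∧ allB E i.1 w = true) (fun a b => a ∈ W ∧ b ∈ W ∧ eB E J a b = true) ↔
      coreD E W J = true := by
  have hl := Pool.Agent.Helper878_mm.LCtx.toLC h.lc
  unfold coreD
  rw [decide_eq_true_eq, ← card_J h.lc.hJn, ← Finset.card_univ]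
  refine assign_iff Finset.univ _ _ W.toFinset (fun i => an i.1) bn ?_ ?_
    ?_ (nodC W J) (lnkD E W J) ?_ ?_ ?_ ?_ ?_
  · intro i _ j _ hij
    exact Subtype.ext (hl.nm_inj i.2 j.2 (Prod.mk.inj hij).1)
  · intro a b hab
    exact (Prod.mk.inj hab).1
  · intro i _ w hw
    exact absurd (Prod.mk.inj hw).2 (by decide)
  · unfold nodC
    rw [List.nodup_append]
    refine ⟨List.Nodup.map_on (fun Z hZ Z' hZ' he => hl.nm_inj hZ hZ' (Prod.mk.inj he).1) hl.hJn,
      hl.hWn.map (fun a b hab => (Prod.mk.inj hab).1), ?_⟩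
    intro a ha b hb hab
    obtain ⟨Z, _, rfl⟩ := List.mem_map.1 ha
    obtain ⟨w, _, rfl⟩ := List.mem_map.1 hb
    exact absurd (Prod.mk.inj hab).2 (by decide)
  · intro v
    unfold nodC
    rw [List.mem_append, List.mem_map, List.mem_map]
    refine or_congr ?_ ?_
    · constructor
      · rintro ⟨Z, hZ, rfl⟩
        exact ⟨⟨Z, hZ⟩, Finset.mem_univ _, rfl⟩
      · rintro ⟨i, _, hi⟩
        exact ⟨i.1, i.2, hi.symm⟩
    · constructor
      · rintro ⟨w, hw, rfl⟩
        exact ⟨w, List.mem_toFinset.2 hw, rfl⟩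
      · rintro ⟨w, hw, rfl⟩
        exact ⟨w, List.mem_toFinset.1 hw, rfl⟩
  · intro x y
    unfold lnkD
    rw [List.mem_append, List.mem_map, List.mem_map]
    refine or_congr ?_ ?_
    · constructor
      · rintro ⟨⟨Z, w⟩, hm, he⟩
        rw [List.mem_filter, List.mem_product] at hm
        obtain ⟨⟨hZ, hw⟩, hz⟩ := hm
        exact ⟨⟨Z, hZ⟩, Finset.mem_univ _, w, List.mem_toFinset.2 hw, (Prod.mk.inj he).1.symm,
          (Prod.mk.inj he).2.symm, hw, hz⟩
      · rintro ⟨i, _, w, _, h1, h2, h3, h4⟩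
        refine ⟨(i.1, w), List.mem_filter.2 ⟨List.mem_product.2 ⟨i.2, h3⟩, h4⟩, ?_⟩
        rw [h1, h2]
    · constructor
      · rintro ⟨⟨a, b⟩, hm, he⟩
        rw [List.mem_filter, List.mem_product] at hm
        obtain ⟨⟨ha, hb⟩, hab⟩ := hm
        have hne : a ≠ b := by
          obtain ⟨Z, _, z, _, z', _, hp⟩ := e_iff.1 hab
          exact hp.2.1.ne
        exact ⟨a, List.mem_toFinset.2 ha, b, List.mem_toFinset.2 hb, (Prod.mk.inj he).1.symm,
          (Prod.mk.inj he).2.symm, hne, ha, hb, hab⟩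
      · rintro ⟨a, _, b, _, h1, h2, _, ha, hb, hab⟩
        refine ⟨(a, b), List.mem_filter.2 ⟨List.mem_product.2 ⟨ha, hb⟩, hab⟩, ?_⟩
        rw [h1, h2]
  · intro i w hw
    exact List.mem_toFinset.2 hw.1
  · intro a b hab
    exact ⟨List.mem_toFinset.2 hab.1, List.mem_toFinset.2 hab.2.1⟩

end

theorem slB_iff {I : Inst} (hw : WellFormed I) : slB I.1 I.2.1 I.2.2 = true ↔ ShortLinks I := by
  unfold slB ShortLinks
  simp only [List.all_eq_true, List.mem_append, mem_freeV, NonTerm]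
  constructor
  · intro h Z hZ z a x b z' hz hz' ha hb hx hp
    have := h Z hZ z.1 hz z'.1 hz' a.1 ⟨a.2, ha⟩ b.1 ⟨b.2, hb⟩ x.1
      (hx.imp (fun hx => ⟨x.2, hx⟩) id)
    rw [Bool.not_eq_true', ← Bool.not_eq_true, p5_iff] at this
    simp only [graph_adj] at hp
    exact this hp
  · intro h Z hZ z hz z' hz' a ha b hb x hx
    have h1 := (hw.2.2 Z hZ).2
    have hxV : x ∈ I.1 := by
      rcases hx with hx | hx
      · exact hx.1
      · exact h1 x hx
    rw [Bool.not_eq_true', ← Bool.not_eq_true, p5_iff]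
    have := h Z hZ ⟨z, h1 z hz⟩ ⟨a, ha.1⟩ ⟨x, hxV⟩ ⟨b, hb.1⟩ ⟨z', h1 z' hz'⟩ hz hz' ha.2 hb.2
      (hx.imp (fun hx => hx.2) id)
    simp only [graph_adj] at this
    exact this

theorem dlB_iff {I : Inst} (hw : WellFormed I) :
    dlB I.1 I.2.1 I.2.2 = true ↔ DominatingLinks I := by
  unfold dlB DominatingLinks
  simp only [List.all_eq_true, Bool.or_eq_true, decide_eq_true_eq, mem_freeV, adj_iff, NonTerm]
  constructor
  · intro h Z hZ Y hY hZY z a b z' y hz hz' hy ha hb hp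
    have := ((h Z hZ Y hY).resolve_left hZY) z.1 hz z'.1 hz' y.1 hy a.1 ⟨a.2, ha⟩ b.1 ⟨b.2, hb⟩
    rw [Bool.not_eq_true', ← Bool.not_eq_true, p4_iff] at this
    simp only [graph_adj] at hp ⊢
    exact this.resolve_left (not_not.2 hp)
  · intro h Z hZ Y hY
    by_cases hZY : Z = Y
    · exact Or.inl hZY
    · right
      intro z hz z' hz' y hy a ha b hb
      have h1 := (hw.2.2 Z hZ).2
      have h2 := (hw.2.2 Y hY).2
      rw [Bool.not_eq_true', ← Bool.not_eq_true, p4_iff]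
      by_cases hp : P4 (GG I.2.1) z a b z'
      · right
        have := h Z hZ Y hY hZY ⟨z, h1 z hz⟩ ⟨a, ha.1⟩ ⟨b, hb.1⟩ ⟨z', h1 z' hz'⟩ ⟨y, h2 y hy⟩ hz hz'
          hy ha.2 hb.2
        simp only [graph_adj] at this
        exact this hp
      · exact Or.inl hp

/-- the whole algorithm -/
def solve (I : Inst) : Bool :=
  wfB I && kpB I.1 I.2.1 && slB I.1 I.2.1 I.2.2 && dlB I.1 I.2.1 I.2.2 &&
    coreD I.2.1 (freeV I.1 I.2.2) (discs I.2.1 I.2.2)

theorem poly_solve : Poly solve := by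
  unfold solve wfB kpB nodupB
  fun_prop

theorem main : InPP (fun I : Inst => WellFormed I ∧ Free twoP1P2 (graph I.1 I.2.1) ∧
    ShortLinks I ∧ DominatingLinks I ∧ DCS I) := by
  refine inPP_of poly_solve fun I => ?_
  unfold solve
  rw [Bool.and_eq_true, Bool.and_eq_true, Bool.and_eq_true, Bool.and_eq_true, wfB_iff, kpB_iff,
    free_iff]
  have key : WellFormed I → KP (GG I.2.1) I.1.toFinset → ShortLinks I → DominatingLinks I →
      (DCS I ↔ coreD I.2.1 (freeV I.1 I.2.2) (discs I.2.1 I.2.2) = true) := by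
    intro hw hT hS hD
    have h0 : S1 I.2.1 I.1.toFinset (freeV I.1 I.2.2) (discs I.2.1 I.2.2) := by
      refine ⟨lctx hw hT, ?_, ?_⟩
      · intro Z hZ z hz z' hz' a ha b hb x hx
        have hZ' := (List.mem_filter.1 hZ).1
        have h1 := (hw.2.2 Z hZ').2
        rw [mem_freeV] at ha hb
        rw [mem_freeV] at hx
        have hxV : x ∈ I.1 := by
          rcases hx with hx | hx
          · exact hx.1
          · exact h1 x hx
        have := hS Z hZ' ⟨z, h1 z hz⟩ ⟨a, ha.1⟩ ⟨x, hxV⟩ ⟨b, hb.1⟩ ⟨z', h1 z' hz'⟩ hz hz' ha.2 hb.2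
          (hx.imp (fun hx => hx.2) id)
        simp only [graph_adj] at this
        exact this
      · intro Z hZ Y hY hZY z hz z' hz' y hy a ha b hb hp
        have hZ' := (List.mem_filter.1 hZ).1
        have hY' := (List.mem_filter.1 hY).1
        have h1 := (hw.2.2 Z hZ').2
        have h2 := (hw.2.2 Y hY').2
        rw [mem_freeV] at ha hb
        have := hD Z hZ' Y hY' hZY ⟨z, h1 z hz⟩ ⟨a, ha.1⟩ ⟨b, hb.1⟩ ⟨z', h1 z' hz'⟩ ⟨y, h2 y hy⟩ hz
          hz' hy ha.2 hb.2
        simp only [graph_adj] at this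
        exact this hp
    rw [dcs_iff hw hT, feas_iff_assign h0, assign_core h0]
  constructor
  · rintro ⟨hw, hT, hS, hD, hF⟩
    exact ⟨⟨⟨⟨hw, hT⟩, (slB_iff hw).2 hS⟩, (dlB_iff hw).2 hD⟩, (key hw hT hS hD).1 hF⟩
  · rintro ⟨⟨⟨⟨hw, hT⟩, hS⟩, hD⟩, hc⟩
    have hS' := (slB_iff hw).1 hS
    have hD' := (dlB_iff hw).1 hD
    exact ⟨hw, hT, hS', hD', (key hw hT hS' hD').2 hc⟩

end Pool.Agent.Helper878_pd
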